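import Mathlib
import Pool.Agent.TH407.MZ.Defs

/-!
# Pieces of the extension of a function of the longitude (job 3028)
-/

set_option autoImplicit false

namespace Pool.Agent.TH124.MZ

open Pool.Agent.TH407 Pool.Agent.TH407.MZ
open MeasureTheory Set Complex
open scoped ENNReal NNReal Real ComplexConjugate
open Pool.Agent.TH407.MV (chi wv dt AC)

/-- the piece of the extension where `ω·X` is localised by `ψ` -/
noncomputable def Fp (ψ : ℝ → ℝ) (g : ℝ → ℂ) (X : ℝ × ℝ) (t : ℝ) : ℂ :=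
  ∫ θ in Ioo (-π) π, KZ t (dt X θ) * ((ψ (dt X θ) : ℝ) : ℂ) * g θ

/-- the scaled shell -/
def Sh (μ : ℝ) (j : ℕ) : Set (ℝ × ℝ) :=
  {X : ℝ × ℝ | 4 ^ j * μ ^ 2 ≤ 4 * AR.sq X ∧ 4 * AR.sq X < 4 ^ (j + 1) * μ ^ 2}

/-- the scaled disc -/
def Dsc (μ : ℝ) : Set (ℝ × ℝ) := {X : ℝ × ℝ | 4 * AR.sq X < μ ^ 2}

theorem sq_cont : Continuous AR.sq := by
  unfold AR.sq
  fun_prop

theorem Sh_meas (μ : ℝ) (j : ℕ) : MeasurableSet (Sh μ j) := by
  have h := sq_cont.measurable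
  exact (measurableSet_le measurable_const (h.const_mul 4)).inter
    (measurableSet_lt (h.const_mul 4) measurable_const)

theorem Dsc_meas (μ : ℝ) : MeasurableSet (Dsc μ) := by
  have h := sq_cont.measurable
  exact measurableSet_lt (h.const_mul 4) measurable_const

theorem etz_cont : Continuous etz := by
  unfold etz
  have h := Real.smoothTransition.continuous
  exact (h.comp (by fun_prop)).mul (h.comp (by fun_prop))

theorem etz_neg (h : ℝ) : etz (-h) = etz h := by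
  unfold etz
  have e1 : 3 - 4 * -h = 3 + 4 * h := by ring
  have e2 : 3 + 4 * -h = 3 - 4 * h := by ring
  rw [e1, e2, mul_comm]

theorem czz_cont : Continuous czz := by
  unfold czz
  exact Real.smoothTransition.continuous.comp (by fun_prop)

theorem psz_cont : Continuous psz := by
  unfold psz
  exact czz_cont.sub (czz_cont.comp (by fun_prop))

theorem czz_one {y : ℝ} (h : y ≤ 1) : czz y = 1 := by
  unfold czz
  exact Real.smoothTransition.one_of_one_le (by linarith)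

theorem czz_zero {y : ℝ} (h : 2 ≤ y) : czz y = 0 := by
  unfold czz
  exact Real.smoothTransition.zero_of_nonpos (by linarith)

theorem czz_mem (y : ℝ) : 0 ≤ czz y ∧ czz y ≤ 1 := by
  unfold czz
  exact ⟨Real.smoothTransition.nonneg _, Real.smoothTransition.le_one _⟩

theorem psz_abs (y : ℝ) : |psz y| ≤ 1 := by
  unfold psz
  have h1 := czz_mem y
  have h2 := czz_mem (2 * y)
  rw [abs_le]
  constructor <;> linarith [h1.1, h1.2, h2.1, h2.2]

theorem psz_lo {y : ℝ} (h : y ≤ 1 / 2) : psz y = 0 := by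
  unfold psz
  rw [czz_one (by linarith), czz_one (by linarith), sub_self]

theorem psz_hi {y : ℝ} (h : 2 ≤ y) : psz y = 0 := by
  unfold psz
  rw [czz_zero h, czz_zero (by linarith), sub_self]

/-- the central cut-off -/
noncomputable def c0 (w : ℝ) : ℝ := czz (2 * w) + czz (-(2 * w)) - 1

theorem c0_cont : Continuous c0 := by
  unfold c0
  exact ((czz_cont.comp (by fun_prop)).add (czz_cont.comp (by fun_prop))).sub continuous_const

theorem c0_abs (w : ℝ) : |c0 w| ≤ 1 := by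
  unfold c0
  have h1 := czz_mem (2 * w)
  have h2 := czz_mem (-(2 * w))
  rw [abs_le]
  constructor <;> linarith [h1.1, h1.2, h2.1, h2.2]

theorem c0_zero {w : ℝ} (h : 1 ≤ |w|) : c0 w = 0 := by
  unfold c0
  rcases le_or_gt 0 w with h0 | h0
  · rw [abs_of_nonneg h0] at h
    rw [czz_zero (by linarith), czz_one (by linarith)]
    ring
  · rw [abs_of_neg h0] at h
    rw [czz_one (by linarith), czz_zero (by linarith)]
    ring

theorem tele (w : ℝ) (K : ℕ) : ∑ k ∈ Finset.range (K + 1), psz (w / 2 ^ k) =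
    czz (w / 2 ^ K) - czz (2 * w) := by
  induction K with
  | zero => simp [psz]
  | succ K ih =>
    rw [Finset.sum_range_succ, ih]
    unfold psz
    have e : 2 * (w / 2 ^ (K + 1)) = w / 2 ^ K := by
      rw [pow_succ]
      field_simp
    rw [e]
    ring

theorem part_one {w : ℝ} {K : ℕ} (h : |w| ≤ 2 ^ K) :
    c0 w + ∑ k ∈ Finset.range (K + 1), psz (w / 2 ^ k) +
      ∑ k ∈ Finset.range (K + 1), psz (-w / 2 ^ k) = 1 := by
  have h0 : (0 : ℝ) < 2 ^ K := by positivity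
  have h1 : w / 2 ^ K ≤ 1 := by
    rw [div_le_one h0]
    exact (le_abs_self w).trans h
  have h2 : -w / 2 ^ K ≤ 1 := by
    rw [div_le_one h0]
    exact (neg_le_abs w).trans h
  rw [tele, tele, czz_one h1, czz_one h2]
  unfold c0
  have e : 2 * -w = -(2 * w) := by ring
  rw [e]
  ring

theorem dt_cont : Continuous (Function.uncurry dt) := by
  unfold MV.dt Function.uncurry
  fun_prop

theorem dt_sq_le (X : ℝ × ℝ) (θ : ℝ) : dt X θ ^ 2 ≤ AR.sq X := by
  unfold MV.dt AR.sq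
  nlinarith [Real.sin_sq_add_cos_sq θ, sq_nonneg (X.1 * Real.sin θ - X.2 * Real.cos θ)]

theorem dt_neg (X : ℝ × ℝ) (θ : ℝ) : dt (-X) θ = -dt X θ := by
  unfold MV.dt
  show -X.1 * Real.cos θ + -X.2 * Real.sin θ = _
  ring

theorem dt_scale (μ : ℝ) (y : ℝ × ℝ) (θ : ℝ) : dt (μ * y.1, μ * y.2) θ = μ * dt y θ := by
  unfold MV.dt
  ring

theorem KZ_meas : Measurable (Function.uncurry KZ) := by
  have h : StronglyMeasurable (Function.uncurry fun (p : ℝ × ℝ) (h : ℝ) =>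
      (etz h : ℂ) * cexp (-(I * ((√(1 - h ^ 2) * p.2 + h * p.1 : ℝ) : ℂ)))) := by
    refine Measurable.stronglyMeasurable ?_
    have he := etz_cont.measurable
    unfold Function.uncurry
    fun_prop
  exact (h.integral_prod_right (ν := volume)).measurable

theorem KZ_neg (t w : ℝ) : KZ t (-w) = conj (KZ t w) := by
  unfold KZ
  rw [← integral_conj, ← integral_neg_eq_self]
  refine integral_congr_ae (Filter.Eventually.of_forall fun h => ?_)
  show (etz (-h) : ℂ) * cexp (-(I * ((√(1 - (-h) ^ 2) * -w + -h * t : ℝ) : ℂ))) =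
    conj ((etz h : ℂ) * cexp (-(I * ((√(1 - h ^ 2) * w + h * t : ℝ) : ℂ))))
  rw [map_mul, Complex.conj_ofReal, ← Complex.exp_conj, map_neg, map_mul, Complex.conj_ofReal,
    Complex.conj_I, etz_neg, neg_sq]
  congr 2
  have e : √(1 - h ^ 2) * -w + -h * t = -(√(1 - h ^ 2) * w + h * t) := by ring
  rw [e, Complex.ofReal_neg]
  ring

theorem Fp_meas {ψ : ℝ → ℝ} (hψ : Measurable ψ) {g : ℝ → ℂ} (hg : Measurable g) :
    Measurable fun ξ : (ℝ × ℝ) × ℝ => Fp ψ g ξ.1 ξ.2 := by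
  have hd : Measurable fun p : ((ℝ × ℝ) × ℝ) × ℝ => dt p.1.1 p.2 := by
    unfold MV.dt
    fun_prop
  have hq : Measurable fun p : ((ℝ × ℝ) × ℝ) × ℝ => (p.1.2, dt p.1.1 p.2) :=
    (measurable_snd.comp measurable_fst).prodMk hd
  have hK : Measurable fun p : ((ℝ × ℝ) × ℝ) × ℝ =>
      Function.uncurry KZ (p.1.2, dt p.1.1 p.2) := KZ_meas.comp hq
  have hψ' : Measurable fun p : ((ℝ × ℝ) × ℝ) × ℝ => ((ψ (dt p.1.1 p.2) : ℝ) : ℂ) :=
    Complex.measurable_ofReal.comp (hψ.comp hd)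
  have hg' : Measurable fun p : ((ℝ × ℝ) × ℝ) × ℝ => g p.2 := hg.comp measurable_snd
  have h : StronglyMeasurable fun p : ((ℝ × ℝ) × ℝ) × ℝ =>
      Function.uncurry KZ (p.1.2, dt p.1.1 p.2) * ((ψ (dt p.1.1 p.2) : ℝ) : ℂ) * g p.2 :=
    ((hK.mul hψ').mul hg').stronglyMeasurable
  exact (h.integral_prod_right' (ν := volume.restrict (Ioo (-π) π))).measurable

theorem enorm_conj (z : ℂ) : ‖conj z‖ₑ = ‖z‖ₑ := by
  rw [← ofReal_norm, ← ofReal_norm, RCLike.norm_conj]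

theorem Fp_neg (ψ : ℝ → ℝ) (g : ℝ → ℂ) (X : ℝ × ℝ) (t : ℝ) :
    Fp (fun y => ψ (-y)) g X t = conj (Fp ψ (fun θ => conj (g θ)) (-X) t) := by
  unfold Fp
  rw [← integral_conj]
  refine integral_congr_ae (Filter.Eventually.of_forall fun θ => ?_)
  show KZ t (dt X θ) * ((ψ (-dt X θ) : ℝ) : ℂ) * g θ =
    conj (KZ t (dt (-X) θ) * ((ψ (dt (-X) θ) : ℝ) : ℂ) * conj (g θ))
  rw [dt_neg, map_mul, map_mul, Complex.conj_conj, Complex.conj_ofReal, ← KZ_neg, neg_neg]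

theorem lint_scale {t : ℝ} (ht : 0 < t) (F : ℝ × ℝ → ℝ≥0∞) :
    ∫⁻ X, F X = ENNReal.ofReal (t ^ 2) * ∫⁻ y : ℝ × ℝ, F (t * y.1, t * y.2) := by
  have hne : t ≠ 0 := ht.ne'
  have h1 := Measure.map_addHaar_smul (volume : Measure (ℝ × ℝ)) hne
  have h2 : ∫⁻ X, F X ∂(Measure.map (fun y : ℝ × ℝ => t • y) volume) =
      ∫⁻ y : ℝ × ℝ, F (t • y) :=
    (measurableEmbedding_const_smul₀ hne).lintegral_map F
  rw [h1, lintegral_smul_measure] at h2
  have h3 : ∀ y : ℝ × ℝ, t • y = (t * y.1, t * y.2) := by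
    intro y
    ext <;> rfl
  simp only [h3] at h2
  rw [← h2, smul_eq_mul, ← mul_assoc, ← ENNReal.ofReal_mul (by positivity)]
  have h4 : Module.finrank ℝ (ℝ × ℝ) = 2 := by
    rw [Module.finrank_prod, Module.finrank_self]
  rw [h4]
  have h5 : t ^ 2 * |(t ^ 2)⁻¹| = 1 := by
    rw [abs_of_nonneg (by positivity), mul_inv_cancel₀ (by positivity)]
  rw [h5, ENNReal.ofReal_one, one_mul]

theorem sq_scale (μ : ℝ) (y : ℝ × ℝ) : AR.sq (μ * y.1, μ * y.2) = μ ^ 2 * AR.sq y := by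
  unfold AR.sq
  ring

theorem set_scale {μ : ℝ} (hμ : 0 < μ) {S S' : Set (ℝ × ℝ)} (hS : MeasurableSet S)
    (hS' : MeasurableSet S') (h : ∀ y : ℝ × ℝ, (μ * y.1, μ * y.2) ∈ S' ↔ y ∈ S)
    (F : ℝ × ℝ → ℝ≥0∞) : ∫⁻ X in S', F X =
      ENNReal.ofReal (μ ^ 2) * ∫⁻ y in S, F (μ * y.1, μ * y.2) := by
  rw [← lintegral_indicator hS', ← lintegral_indicator hS, lint_scale hμ]
  congr 1
  refine lintegral_congr fun y => ?_
  by_cases hy : y ∈ S
  · rw [indicator_of_mem hy, indicator_of_mem ((h y).2 hy)]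
  · rw [indicator_of_notMem hy, indicator_of_notMem (fun hc => hy ((h y).1 hc))]

theorem shl_meas (j : ℕ) : MeasurableSet (shl j) := by
  have h := sq_cont.measurable
  exact (measurableSet_le measurable_const (h.const_mul 4)).inter
    (measurableSet_lt (h.const_mul 4) measurable_const)

theorem dsc_meas : MeasurableSet {y : ℝ × ℝ | 4 * AR.sq y < 1} := by
  have h := sq_cont.measurable
  exact measurableSet_lt (h.const_mul 4) measurable_const

theorem sh_scale {μ : ℝ} (hμ : 0 < μ) (j : ℕ) (F : ℝ × ℝ → ℝ≥0∞) : ∫⁻ X in Sh μ j, F X =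
      ENNReal.ofReal (μ ^ 2) * ∫⁻ y in shl j, F (μ * y.1, μ * y.2) := by
  refine set_scale hμ (shl_meas j) (Sh_meas μ j) (fun y => ?_) F
  unfold Sh shl
  simp only [mem_ofPred_eq, sq_scale]
  have h2 : 0 < μ ^ 2 := by positivity
  constructor
  · rintro ⟨h3, h4⟩
    constructor
    · nlinarith
    · by_contra hc
      push Not at hc
      nlinarith
  · rintro ⟨h3, h4⟩
    constructor <;> nlinarith

theorem real_bound {g : ℝ → ℂ} {B : ℝ≥0} (hB : ∀ θ, ‖g θ‖ₑ ≤ B) (θ : ℝ) : ‖g θ‖ ≤ B := by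
  have h := hB θ
  rw [enorm_le_coe] at h
  exact h

theorem enorm_ofReal_pow {x : ℝ} (hx : 0 ≤ x) : ‖(x : ℂ)‖ₑ ^ 4 = ENNReal.ofReal (x ^ 4) := by
  rw [← ofReal_norm, Complex.norm_real, Real.norm_eq_abs, abs_of_nonneg hx,
    ENNReal.ofReal_pow hx]

theorem AC_conj {A : ℝ → ℂ} (hA : AC A) : AC fun y => conj (A y) := by
  obtain ⟨A1, A2, hc, h1, h2, hb⟩ := hA
  refine ⟨fun y => conj (A1 y), fun y => conj (A2 y), ?_, fun y => (h1 y).star,
    fun y => (h2 y).star, fun y => ?_⟩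
  · exact Complex.continuous_conj.comp hc
  · simp only [RCLike.norm_conj]
    exact hb y

theorem phz_abs (t μ y : ℝ) : phz (|t| / μ) y = phz (t / μ) y := by
  unfold phz
  congr 2
  rw [div_pow, div_pow, sq_abs]

/-- shells, small times -/
theorem sb_small (h5 : MainZ) (h6 : StatZ) : ∃ C : ℝ≥0, ∀ μ t : ℝ, 1 ≤ μ → |t| ≤ 8 * μ →
    ∀ (g : ℝ → ℂ) (B : ℝ≥0), Measurable g → (∀ θ, ‖g θ‖ₑ ≤ B) → ∀ j : ℕ,
    ∫⁻ X in Sh μ j, ‖Fp (fun w => psz (w / μ)) g X t‖ₑ ^ 4 ≤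
      C * ENNReal.ofReal ((1 + Real.log μ) ^ 2 / (μ ^ 2 + 4 ^ j * t ^ 2)) * B ^ 2 *
        ∫⁻ θ in Ioo (-π) π, ‖g θ‖ₑ ^ 2 := by
  obtain ⟨Cm, hM⟩ := h5
  obtain ⟨Cs, hCs, hS⟩ := h6
  refine ⟨(Cs ^ 4).toNNReal * Cm, fun μ t hμ ht g B hg hB j => ?_⟩
  have hμ0 : 0 < μ := by linarith
  obtain ⟨A, hA, hAs, hAb⟩ := hS μ t hμ ht
  have hA' := AC_conj hA
  have hAs' : ∀ y, y ∉ Icc (1 / 2 : ℝ) 2 → conj (A y) = 0 := fun y hy => by
    rw [hAs y hy, map_zero]
  have hB' : ∀ θ, ‖conj (g θ)‖ₑ ≤ B := by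
    intro θ
    rw [enorm_conj]
    exact hB θ
  have hg' : Measurable fun θ => conj (g θ) := Complex.continuous_conj.measurable.comp hg
  have h1 := hM (|t| / μ) μ (by positivity) (by rw [div_le_iff₀ hμ0]; exact ht) hμ _ hA' hAs' _ B
    hg' hB' j
  simp only [enorm_conj] at h1
  have h2 : ∀ y : ℝ × ℝ, ‖Fp (fun w => psz (w / μ)) g (μ * y.1, μ * y.2) t‖ₑ ^ 4 =
      ENNReal.ofReal (Cs ^ 4 / μ ^ 2) * ‖∫ θ in Ioo (-π) π,
        cexp (I * ((μ * phz (|t| / μ) (dt y θ) : ℝ) : ℂ)) *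
          (conj (A (dt y θ)) * conj (g θ))‖ₑ ^ 4 := by
    intro y
    have h3 : Fp (fun w => psz (w / μ)) g (μ * y.1, μ * y.2) t =
        ((Cs * μ ^ (-(1 / 2) : ℝ) : ℝ) : ℂ) * conj (∫ θ in Ioo (-π) π,
          cexp (I * ((μ * phz (|t| / μ) (dt y θ) : ℝ) : ℂ)) *
          (conj (A (dt y θ)) * conj (g θ))) := by
      unfold Fp
      rw [← integral_conj, ← integral_const_mul]
      refine integral_congr_ae (Filter.Eventually.of_forall fun θ => ?_)
      show KZ t (dt (μ * y.1, μ * y.2) θ) *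
        ((psz (dt (μ * y.1, μ * y.2) θ / μ) : ℝ) : ℂ) * g θ =
        ((Cs * μ ^ (-(1 / 2) : ℝ) : ℝ) : ℂ) *
          conj (cexp (I * ((μ * phz (|t| / μ) (dt y θ) : ℝ) : ℂ)) *
          (conj (A (dt y θ)) * conj (g θ)))
      rw [dt_scale, mul_div_cancel_left₀ _ hμ0.ne', hAb, map_mul, map_mul, Complex.conj_conj,
        Complex.conj_conj, ← Complex.exp_conj, map_mul, Complex.conj_I, Complex.conj_ofReal,
        phz_abs, neg_mul]
      ring
    rw [h3, enorm_mul, enorm_conj, mul_pow, enorm_ofReal_pow (by positivity)]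
    congr 2
    have e0 : (-(1 / 2) : ℝ) * ((4 : ℕ) : ℝ) = -((2 : ℕ) : ℝ) := by norm_num
    rw [mul_pow, ← Real.rpow_natCast (μ ^ (-(1 / 2) : ℝ)), ← Real.rpow_mul hμ0.le, e0,
      Real.rpow_neg hμ0.le, Real.rpow_natCast, div_eq_mul_inv]
  rw [sh_scale hμ0 j]
  simp only [h2]
  rw [lintegral_const_mul' _ _ ENNReal.ofReal_ne_top]
  calc ENNReal.ofReal (μ ^ 2) * (ENNReal.ofReal (Cs ^ 4 / μ ^ 2) * ∫⁻ y in shl j,
        ‖∫ θ in Ioo (-π) π, cexp (I * ((μ * phz (|t| / μ) (dt y θ) : ℝ) : ℂ)) *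
          (conj (A (dt y θ)) * conj (g θ))‖ₑ ^ 4)
      ≤ ENNReal.ofReal (μ ^ 2) * (ENNReal.ofReal (Cs ^ 4 / μ ^ 2) *
        (Cm * ENNReal.ofReal ((1 + Real.log μ) ^ 2 / (μ ^ 2 * (1 + 4 ^ j * (|t| / μ) ^ 2))) *
          B ^ 2 * ∫⁻ θ in Ioo (-π) π, ‖g θ‖ₑ ^ 2)) := by
        gcongr
    _ = _ := by
        have e1 : ENNReal.ofReal (μ ^ 2) * ENNReal.ofReal (Cs ^ 4 / μ ^ 2) =
            ENNReal.ofReal (Cs ^ 4) := by
          rw [← ENNReal.ofReal_mul (by positivity)]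
          congr 1
          field_simp
        have e2 : μ ^ 2 * (1 + 4 ^ j * (|t| / μ) ^ 2) = μ ^ 2 + 4 ^ j * t ^ 2 := by
          rw [div_pow, sq_abs]
          field_simp
        rw [← mul_assoc, e1, e2]
        push_cast
        simp only [ENNReal.ofReal]
        ring

end Pool.Agent.TH124.MZ
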