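import Mathlib
import Pool.Agent.TH124.MZ.Base

/-!
# Space-time `L⁴` bound for functions of the longitude (job 3028)
-/

set_option autoImplicit false

namespace Pool.Agent.TH124.MZ

open Pool.Agent.TH407 Pool.Agent.TH407.MZ
open MeasureTheory Set Complex
open scoped ENNReal NNReal Real ComplexConjugate
open Pool.Agent.TH407.MV (chi wv dt AC)

theorem dsc_scale {μ : ℝ} (hμ : 0 < μ) (F : ℝ × ℝ → ℝ≥0∞) : ∫⁻ X in Dsc μ, F X =
      ENNReal.ofReal (μ ^ 2) * ∫⁻ y in {y : ℝ × ℝ | 4 * AR.sq y < 1}, F (μ * y.1, μ * y.2) := by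
  refine set_scale hμ dsc_meas (Dsc_meas μ) (fun y => ?_) F
  unfold Dsc
  simp only [mem_ofPred_eq, sq_scale]
  have h2 : 0 < μ ^ 2 := by positivity
  constructor
  · intro h3
    by_contra hc
    push Not at hc
    nlinarith
  · intro h3
    nlinarith

/-- the trivial bound for a piece -/
theorem triv_gen (h8 : TrivZ) : ∃ C : ℝ≥0, ∀ (ψ : ℝ → ℝ) (μ t c : ℝ), Measurable ψ → 0 < μ →
    0 < c → (∀ w, ‖KZ t (μ * w) * ((ψ (μ * w) : ℝ) : ℂ)‖ ≤ c) →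
    (∀ w, 2 < |w| → ψ (μ * w) = 0) →
    ∀ (g : ℝ → ℂ) (B : ℝ≥0), Measurable g → (∀ θ, ‖g θ‖ₑ ≤ B) →
    (∫⁻ X in Dsc μ, ‖Fp ψ g X t‖ₑ ^ 4 ≤ C * ENNReal.ofReal (c ^ 4 * μ ^ 2) * B ^ 2 *
      ∫⁻ θ in Ioo (-π) π, ‖g θ‖ₑ ^ 2) ∧
    ∀ j : ℕ, ∫⁻ X in Sh μ j, ‖Fp ψ g X t‖ₑ ^ 4 ≤ C * ENNReal.ofReal (c ^ 4 * μ ^ 2 * (4 ^ j)⁻¹) *
      B ^ 2 * ∫⁻ θ in Ioo (-π) π, ‖g θ‖ₑ ^ 2 := by
  obtain ⟨Ct, hT⟩ := h8
  refine ⟨Ct, fun ψ μ t c hψ hμ hc h1 h2 g B hg hB => ?_⟩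
  set k : ℝ → ℂ := fun w => ((c⁻¹ : ℝ) : ℂ) * (KZ t (μ * w) * ((ψ (μ * w) : ℝ) : ℂ)) with hk
  have hkm : Measurable k := by
    have hq : Measurable fun w : ℝ => (t, μ * w) := by fun_prop
    have hK : Measurable fun w : ℝ => Function.uncurry KZ (t, μ * w) := KZ_meas.comp hq
    have hψ' : Measurable fun w : ℝ => ((ψ (μ * w) : ℝ) : ℂ) :=
      Complex.measurable_ofReal.comp (hψ.comp (measurable_const_mul μ))
    exact (hK.mul hψ').const_mul _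
  have hk1 : ∀ w, ‖k w‖ ≤ 1 := by
    intro w
    show ‖((c⁻¹ : ℝ) : ℂ) * (KZ t (μ * w) * ((ψ (μ * w) : ℝ) : ℂ))‖ ≤ 1
    rw [norm_mul, Complex.norm_real, Real.norm_eq_abs, abs_of_pos (by positivity),
      inv_mul_le_iff₀ hc, mul_one]
    exact h1 w
  have hk2 : ∀ w, 2 < |w| → k w = 0 := by
    intro w hw
    show ((c⁻¹ : ℝ) : ℂ) * (KZ t (μ * w) * ((ψ (μ * w) : ℝ) : ℂ)) = 0
    rw [h2 w hw, Complex.ofReal_zero, mul_zero, mul_zero]
  obtain ⟨h3, h4⟩ := hT k hkm hk1 hk2 g B hg hB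
  have h5 : ∀ y : ℝ × ℝ, ‖Fp ψ g (μ * y.1, μ * y.2) t‖ₑ ^ 4 =
      ENNReal.ofReal (c ^ 4) * ‖∫ θ in Ioo (-π) π, k (dt y θ) * g θ‖ₑ ^ 4 := by
    intro y
    have h6 : Fp ψ g (μ * y.1, μ * y.2) t =
        (c : ℂ) * ∫ θ in Ioo (-π) π, k (dt y θ) * g θ := by
      unfold Fp
      rw [← integral_const_mul]
      refine integral_congr_ae (Filter.Eventually.of_forall fun θ => ?_)
      show KZ t (dt (μ * y.1, μ * y.2) θ) * ((ψ (dt (μ * y.1, μ * y.2) θ) : ℝ) : ℂ) * g θ =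
        (c : ℂ) * (((c⁻¹ : ℝ) : ℂ) * (KZ t (μ * dt y θ) * ((ψ (μ * dt y θ) : ℝ) : ℂ)) * g θ)
      have hc' : (c : ℂ) ≠ 0 := by exact_mod_cast hc.ne'
      rw [dt_scale, Complex.ofReal_inv]
      field_simp
    rw [h6, enorm_mul, mul_pow, enorm_ofReal_pow hc.le]
  constructor
  · rw [dsc_scale hμ]
    simp only [h5]
    rw [lintegral_const_mul' _ _ ENNReal.ofReal_ne_top]
    calc ENNReal.ofReal (μ ^ 2) * (ENNReal.ofReal (c ^ 4) *
          ∫⁻ y in {y : ℝ × ℝ | 4 * AR.sq y < 1}, ‖∫ θ in Ioo (-π) π, k (dt y θ) * g θ‖ₑ ^ 4)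
        ≤ ENNReal.ofReal (μ ^ 2) * (ENNReal.ofReal (c ^ 4) * (Ct * B ^ 2 *
            ∫⁻ θ in Ioo (-π) π, ‖g θ‖ₑ ^ 2)) := by gcongr
      _ = _ := by
          rw [ENNReal.ofReal_mul (by positivity)]
          ring
  · intro j
    rw [sh_scale hμ]
    simp only [h5]
    rw [lintegral_const_mul' _ _ ENNReal.ofReal_ne_top]
    calc ENNReal.ofReal (μ ^ 2) * (ENNReal.ofReal (c ^ 4) *
          ∫⁻ y in shl j, ‖∫ θ in Ioo (-π) π, k (dt y θ) * g θ‖ₑ ^ 4)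
        ≤ ENNReal.ofReal (μ ^ 2) * (ENNReal.ofReal (c ^ 4) * (Ct * ENNReal.ofReal ((4 ^ j)⁻¹) *
            B ^ 2 * ∫⁻ θ in Ioo (-π) π, ‖g θ‖ₑ ^ 2)) := by
          gcongr
          exact h4 j
      _ = _ := by
          rw [ENNReal.ofReal_mul (by positivity), ENNReal.ofReal_mul (by positivity)]
          ring

theorem psz_dsc {μ : ℝ} (hμ : 0 < μ) (g : ℝ → ℂ) {X : ℝ × ℝ} (hX : X ∈ Dsc μ) (t : ℝ) :
    Fp (fun w => psz (w / μ)) g X t = 0 := by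
  have h : ∀ θ, psz (dt X θ / μ) = 0 := by
    intro θ
    apply psz_lo
    rw [div_le_iff₀ hμ]
    have h1 := dt_sq_le X θ
    have h2 : 4 * AR.sq X < μ ^ 2 := hX
    by_contra hc
    push Not at hc
    nlinarith
  unfold Fp
  simp only [h, Complex.ofReal_zero, mul_zero, zero_mul, integral_zero]

/-- the bounds for a piece -/
def SB (ψ : ℝ → ℝ) (μ : ℝ) (g : ℝ → ℂ) (A : ℝ≥0∞) : Prop :=
  ∀ t : ℝ, ∫⁻ X in Dsc μ, ‖Fp ψ g X t‖ₑ ^ 4 ≤ A * ENNReal.ofReal (1 / (μ ^ 2 + t ^ 2)) ∧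
    ∀ j : ℕ, ∫⁻ X in Sh μ j, ‖Fp ψ g X t‖ₑ ^ 4 ≤
      A * ENNReal.ofReal (1 / (μ ^ 2 + 4 ^ j * t ^ 2))

/-- the bounds for the pieces away from the centre -/
theorem sb_all (h5 : MainZ) (h6 : StatZ) (h7 : NonZ) (h8 : TrivZ) : ∃ C : ℝ≥0, ∀ μ : ℝ, 1 ≤ μ →
    ∀ (g : ℝ → ℂ) (B : ℝ≥0), Measurable g → (∀ θ, ‖g θ‖ₑ ≤ B) →
    SB (fun w => psz (w / μ)) μ g (C * ENNReal.ofReal ((1 + Real.log μ) ^ 2) * B ^ 2 *
      ∫⁻ θ in Ioo (-π) π, ‖g θ‖ₑ ^ 2) := by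
  obtain ⟨C1, hC1⟩ := sb_small h5 h6
  obtain ⟨C2, hC2⟩ := triv_gen h8
  obtain ⟨Cn, hCn, -, hN⟩ := h7
  refine ⟨C1 + C2 * (Cn ^ 4).toNNReal, fun μ hμ g B hg hB t => ⟨?_, fun j => ?_⟩⟩
  · have h1 : ∫⁻ X in Dsc μ, ‖Fp (fun w => psz (w / μ)) g X t‖ₑ ^ 4 = ∫⁻ X in Dsc μ, 0 := by
      refine setLIntegral_congr_fun (Dsc_meas μ) fun X hX => ?_
      show ‖Fp (fun w => psz (w / μ)) g X t‖ₑ ^ 4 = 0
      rw [psz_dsc (by linarith) g hX t, enorm_zero]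
      norm_num
    rw [h1, lintegral_zero]
    exact zero_le
  · have hμ0 : 0 < μ := by linarith
    set J : ℝ≥0∞ := ∫⁻ θ in Ioo (-π) π, ‖g θ‖ₑ ^ 2 with hJ
    have hL : 0 ≤ Real.log μ := Real.log_nonneg hμ
    rcases le_or_gt |t| (8 * μ) with ht | ht
    · have h1 := hC1 μ t hμ ht g B hg hB j
      refine h1.trans ?_
      rw [div_eq_mul_one_div ((1 + Real.log μ) ^ 2), ENNReal.ofReal_mul (by positivity)]
      calc (C1 : ℝ≥0∞) * (ENNReal.ofReal ((1 + Real.log μ) ^ 2) *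
            ENNReal.ofReal (1 / (μ ^ 2 + 4 ^ j * t ^ 2))) * B ^ 2 * J
          = C1 * ENNReal.ofReal ((1 + Real.log μ) ^ 2) * B ^ 2 * J *
            ENNReal.ofReal (1 / (μ ^ 2 + 4 ^ j * t ^ 2)) := by ring
        _ ≤ _ := by
            gcongr
            exact_mod_cast le_self_add
    · have h1 : ∀ w, ‖KZ t (μ * w) * ((psz (μ * w / μ) : ℝ) : ℂ)‖ ≤ Cn / (1 + |t|) := by
        intro w
        rw [mul_div_cancel_left₀ _ hμ0.ne']
        by_cases hw : w ∈ Ioo (1 / 2 : ℝ) 2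
        · rw [norm_mul, Complex.norm_real, Real.norm_eq_abs]
          have h2 : 3 * |μ * w| ≤ |t| := by
            rw [abs_mul, abs_of_pos hμ0, abs_of_pos (by linarith [hw.1])]
            nlinarith [hw.2]
          calc ‖KZ t (μ * w)‖ * |psz w| ≤ Cn / (1 + |t|) * 1 := by
                gcongr
                · exact hN t _ h2
                · exact psz_abs w
            _ = _ := mul_one _
        · have h3 : psz w = 0 := by
            rcases le_or_gt w (1 / 2) with h | h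
            · exact psz_lo h
            · refine psz_hi ?_
              by_contra hc
              push Not at hc
              exact hw ⟨h, hc⟩
          rw [h3, Complex.ofReal_zero, mul_zero, norm_zero]
          positivity
      have h2 : ∀ w, 2 < |w| → psz (μ * w / μ) = 0 := by
        intro w hw
        rw [mul_div_cancel_left₀ _ hμ0.ne']
        rcases le_or_gt 0 w with h | h
        · rw [abs_of_nonneg h] at hw
          exact psz_hi hw.le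
        · exact psz_lo (by linarith)
      have h3 := (hC2 (fun w => psz (w / μ)) μ t (Cn / (1 + |t|))
        (psz_cont.measurable.comp (measurable_id.div_const μ)) hμ0 (by positivity) h1 h2 g B
        hg hB).2 j
      refine h3.trans ?_
      have h4 : (Cn / (1 + |t|)) ^ 4 * μ ^ 2 * (4 ^ j)⁻¹ ≤
          Cn ^ 4 * ((1 + Real.log μ) ^ 2 * (1 / (μ ^ 2 + 4 ^ j * t ^ 2))) := by
        have h5 : (1 : ℝ) ≤ (1 + Real.log μ) ^ 2 := by nlinarith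
        have h6 : μ ^ 2 * (4 ^ j)⁻¹ / (1 + |t|) ^ 4 ≤ 1 / (μ ^ 2 + 4 ^ j * t ^ 2) := by
          have h7 : (1 : ℝ) ≤ 4 ^ j := one_le_pow₀ (by norm_num)
          have h8 : μ ^ 2 ≤ t ^ 2 / 64 := by
            rw [← sq_abs t]
            nlinarith [abs_nonneg t]
          have h9 : t ^ 2 ≤ (1 + |t|) ^ 2 := by
            rw [← sq_abs t]
            nlinarith [abs_nonneg t]
          rw [div_le_div_iff₀ (by positivity) (by positivity)]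
          have h10 : μ ^ 2 * (4 ^ j)⁻¹ * (μ ^ 2 + 4 ^ j * t ^ 2) =
              μ ^ 2 * μ ^ 2 * (4 ^ j)⁻¹ + μ ^ 2 * t ^ 2 := by
            field_simp
          rw [h10]
          have h11 : ((4 : ℝ) ^ j)⁻¹ ≤ 1 := inv_le_one_of_one_le₀ h7
          have h12 : μ ^ 2 * μ ^ 2 * ((4 : ℝ) ^ j)⁻¹ ≤ μ ^ 2 * μ ^ 2 :=
            mul_le_of_le_one_right (by positivity) h11
          have h13 : (t ^ 2) ^ 2 ≤ ((1 + |t|) ^ 2) ^ 2 := pow_le_pow_left₀ (by positivity) h9 2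
          have h14 : μ ^ 2 * μ ^ 2 ≤ (t ^ 2 / 64) * (t ^ 2 / 64) := by gcongr
          have h15 : μ ^ 2 * t ^ 2 ≤ (t ^ 2 / 64) * t ^ 2 := by gcongr
          nlinarith [sq_nonneg (t ^ 2)]
        calc (Cn / (1 + |t|)) ^ 4 * μ ^ 2 * (4 ^ j)⁻¹
            = Cn ^ 4 * (μ ^ 2 * (4 ^ j)⁻¹ / (1 + |t|) ^ 4) := by
              rw [div_pow]
              ring
          _ ≤ Cn ^ 4 * (1 / (μ ^ 2 + 4 ^ j * t ^ 2)) := by gcongr
          _ ≤ Cn ^ 4 * ((1 + Real.log μ) ^ 2 * (1 / (μ ^ 2 + 4 ^ j * t ^ 2))) := by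
              gcongr
              exact le_mul_of_one_le_left (by positivity) h5
      calc (C2 : ℝ≥0∞) * ENNReal.ofReal ((Cn / (1 + |t|)) ^ 4 * μ ^ 2 * (4 ^ j)⁻¹) * B ^ 2 * J
          ≤ C2 * ENNReal.ofReal (Cn ^ 4 * ((1 + Real.log μ) ^ 2 *
            (1 / (μ ^ 2 + 4 ^ j * t ^ 2)))) * B ^ 2 * J := by gcongr
        _ = (C2 * ENNReal.ofReal (Cn ^ 4)) * ENNReal.ofReal ((1 + Real.log μ) ^ 2) * B ^ 2 * J *
            ENNReal.ofReal (1 / (μ ^ 2 + 4 ^ j * t ^ 2)) := by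
            rw [ENNReal.ofReal_mul (by positivity), ENNReal.ofReal_mul (by positivity)]
            ring
        _ ≤ _ := by
            gcongr
            have e : (C2 : ℝ≥0∞) * ENNReal.ofReal (Cn ^ 4) =
                ((C2 * (Cn ^ 4).toNNReal : ℝ≥0) : ℝ≥0∞) := by
              push_cast
              rfl
            rw [e]
            exact_mod_cast le_add_self

/-- the bounds for the central piece -/
theorem sb_c0 (h7 : NonZ) (h8 : TrivZ) : ∃ C : ℝ≥0,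
    ∀ (g : ℝ → ℂ) (B : ℝ≥0), Measurable g → (∀ θ, ‖g θ‖ₑ ≤ B) →
    SB c0 1 g (C * B ^ 2 * ∫⁻ θ in Ioo (-π) π, ‖g θ‖ₑ ^ 2) := by
  obtain ⟨C2, hC2⟩ := triv_gen h8
  obtain ⟨Cn, hCn, hN1, hN2⟩ := h7
  refine ⟨C2 * ((4 * Cn) ^ 4).toNNReal, fun g B hg hB t => ?_⟩
  set J : ℝ≥0∞ := ∫⁻ θ in Ioo (-π) π, ‖g θ‖ₑ ^ 2 with hJ
  have hKb : ∀ w, ‖KZ t (1 * w) * ((c0 (1 * w) : ℝ) : ℂ)‖ ≤ 4 * Cn / (1 + |t|) := by
    intro w
    rw [one_mul]
    by_cases hw : |w| < 1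
    · rw [norm_mul, Complex.norm_real, Real.norm_eq_abs]
      have h1 : ‖KZ t w‖ ≤ 4 * Cn / (1 + |t|) := by
        rcases le_or_gt (3 * |w|) |t| with h | h
        · refine (hN2 t w h).trans ?_
          gcongr
          linarith
        · refine (hN1 t w).trans ?_
          rw [le_div_iff₀ (by positivity)]
          nlinarith
      calc ‖KZ t w‖ * |c0 w| ≤ 4 * Cn / (1 + |t|) * 1 := by
            gcongr
            exact c0_abs w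
        _ = _ := mul_one _
    · push Not at hw
      rw [c0_zero hw, Complex.ofReal_zero, mul_zero, norm_zero]
      positivity
  have hK0 : ∀ w, 2 < |w| → c0 (1 * w) = 0 := by
    intro w hw
    rw [one_mul]
    exact c0_zero (by linarith)
  obtain ⟨h1, h2⟩ := hC2 c0 1 t (4 * Cn / (1 + |t|)) c0_cont.measurable one_pos (by positivity)
    hKb hK0 g B hg hB
  have h9 : 1 + t ^ 2 ≤ (1 + |t|) ^ 4 := by
    rw [← sq_abs t]
    have h := abs_nonneg t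
    nlinarith [mul_nonneg h h, mul_nonneg (mul_nonneg h h) h, sq_nonneg (|t| ^ 2)]
  have e0 : ∀ (D : ℝ) (_ : 0 < D), (C2 : ℝ≥0∞) * ENNReal.ofReal ((4 * Cn) ^ 4 * (1 / D)) *
      B ^ 2 * J = ((C2 * ((4 * Cn) ^ 4).toNNReal : ℝ≥0) : ℝ≥0∞) * B ^ 2 * J *
        ENNReal.ofReal (1 / D) := by
    intro D hD
    rw [ENNReal.ofReal_mul (by positivity)]
    push_cast
    simp only [ENNReal.ofReal]
    ring
  constructor
  · refine h1.trans ?_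
    rw [← e0 _ (by positivity)]
    have h12 : (4 * Cn / (1 + |t|)) ^ 4 * 1 ^ 2 ≤ (4 * Cn) ^ 4 * (1 / (1 ^ 2 + t ^ 2)) := by
      rw [one_pow, mul_one, div_pow, div_eq_mul_one_div]
      gcongr
    gcongr (C2 : ℝ≥0∞) * ENNReal.ofReal ?_ * (B : ℝ≥0∞) ^ 2 * J
  · intro j
    refine (h2 j).trans ?_
    rw [← e0 _ (by positivity)]
    have h12 : (4 * Cn / (1 + |t|)) ^ 4 * 1 ^ 2 * (4 ^ j)⁻¹ ≤
        (4 * Cn) ^ 4 * (1 / (1 ^ 2 + 4 ^ j * t ^ 2)) := by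
      rw [one_pow, mul_one, div_pow, div_mul_eq_mul_div, mul_div_assoc]
      refine mul_le_mul_of_nonneg_left ?_ (by positivity)
      rw [div_le_div_iff₀ (by positivity) (by positivity), one_mul]
      have h7 : (1 : ℝ) ≤ 4 ^ j := one_le_pow₀ (by norm_num)
      have h11 : ((4 : ℝ) ^ j)⁻¹ ≤ 1 := inv_le_one_of_one_le₀ h7
      have h10 : ((4 : ℝ) ^ j)⁻¹ * (1 + 4 ^ j * t ^ 2) = (4 ^ j)⁻¹ + t ^ 2 := by
        field_simp
      rw [h10]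
      linarith
    gcongr (C2 : ℝ≥0∞) * ENNReal.ofReal ?_ * (B : ℝ≥0∞) ^ 2 * J

/-- the bounds for the reflected pieces -/
theorem sb_neg {ψ : ℝ → ℝ} {μ : ℝ} {g : ℝ → ℂ} {A : ℝ≥0∞} (h : SB ψ μ (fun θ => conj (g θ)) A) :
    SB (fun w => ψ (-w)) μ g A := by
  intro t
  obtain ⟨h1, h2⟩ := h t
  have key : ∀ S : Set (ℝ × ℝ), MeasurableSet S → (∀ X, -X ∈ S ↔ X ∈ S) →
      ∫⁻ X in S, ‖Fp (fun w => ψ (-w)) g X t‖ₑ ^ 4 =
        ∫⁻ X in S, ‖Fp ψ (fun θ => conj (g θ)) X t‖ₑ ^ 4 := by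
    intro S hS hS'
    rw [← lintegral_indicator hS, ← lintegral_indicator hS,
      ← lintegral_neg_eq_self (μ := (volume : Measure (ℝ × ℝ)))
        (S.indicator fun X => ‖Fp ψ (fun θ => conj (g θ)) X t‖ₑ ^ 4)]
    refine lintegral_congr fun X => ?_
    by_cases hX : X ∈ S
    · rw [indicator_of_mem hX, indicator_of_mem ((hS' X).2 hX), Fp_neg, enorm_conj]
    · rw [indicator_of_notMem hX, indicator_of_notMem (fun hc => hX ((hS' X).1 hc))]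
  have hsq : ∀ X : ℝ × ℝ, AR.sq (-X) = AR.sq X := by
    intro X
    unfold AR.sq
    show (-X.1) ^ 2 + (-X.2) ^ 2 = _
    ring
  constructor
  · rw [key _ (Dsc_meas μ)]
    · exact h1
    · intro X
      unfold Dsc
      simp only [mem_ofPred_eq, hsq]
  · intro j
    rw [key _ (Sh_meas μ j)]
    · exact h2 j
    · intro X
      unfold Sh
      simp only [mem_ofPred_eq, hsq]

/-- the integral in time -/
theorem int_inv {a b : ℝ} (ha : 0 < a) (hb : 0 < b) :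
    ∫⁻ t : ℝ, ENNReal.ofReal (1 / (a ^ 2 + b ^ 2 * t ^ 2)) = ENNReal.ofReal (π / (a * b)) := by
  have e : ∀ t : ℝ, 1 / (a ^ 2 + b ^ 2 * t ^ 2) = (a ^ 2)⁻¹ * (1 + (b / a * t) ^ 2)⁻¹ := by
    intro t
    field_simp
  have hne : b / a ≠ 0 := by positivity
  have hi : Integrable fun t : ℝ => (a ^ 2)⁻¹ * (1 + (b / a * t) ^ 2)⁻¹ :=
    (integrable_inv_one_add_sq.comp_mul_left' hne).const_mul _
  simp only [e]
  rw [← ofReal_integral_eq_lintegral_ofReal hi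
    (Filter.Eventually.of_forall fun t => by positivity)]
  congr 1
  rw [integral_const_mul, Measure.integral_comp_mul_left (fun x : ℝ => (1 + x ^ 2)⁻¹) (b / a),
    integral_univ_inv_one_add_sq, abs_of_pos (by positivity), smul_eq_mul]
  field_simp

theorem nz_cont : Continuous nz := by
  unfold nz
  fun_prop

/-- the zone of `ξ` -/
def EE (l : ℝ) : Set ((ℝ × ℝ) × ℝ) := {ξ | l / 2 ≤ nz ξ ∧ nz ξ ≤ 4 * l}

theorem EE_meas (l : ℝ) : MeasurableSet (EE l) :=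
  (measurableSet_le measurable_const nz_cont.measurable).inter
    (measurableSet_le nz_cont.measurable measurable_const)

theorem abs_le_of_sq {X : ℝ × ℝ} {r : ℝ} (hr : 0 ≤ r) (h : AR.sq X ≤ r ^ 2) :
    |X.1| ≤ r ∧ |X.2| ≤ r := by
  unfold AR.sq at h
  constructor
  · exact abs_le_of_sq_le_sq (by nlinarith [sq_nonneg X.2]) hr
  · exact abs_le_of_sq_le_sq (by nlinarith [sq_nonneg X.1]) hr

/-- integration over time -/
theorem lemG {H : (ℝ × ℝ) × ℝ → ℝ≥0∞} (hH : Measurable H) {S : Set (ℝ × ℝ)}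
    {m p l : ℝ} (hm : 1 ≤ m) (hp : 1 ≤ p) (hl : 1 ≤ l)
    (hSb : ∀ X ∈ S, AR.sq X ≤ (m * p) ^ 2) {A : ℝ≥0∞}
    (hA : ∀ t, ∫⁻ X in S, H (X, t) ≤ A * ENNReal.ofReal (1 / (m ^ 2 + p ^ 2 * t ^ 2))) :
    ∫⁻ ξ in EE l ∩ {ξ | ξ.1 ∈ S}, H ξ ≤ A * ENNReal.ofReal (64 / l) := by
  have hm0 : 0 < m := by linarith
  have hp0 : 0 < p := by linarith
  have hl0 : 0 < l := by linarith
  have hπ := Real.pi_pos
  have hπ4 := Real.pi_le_four
  have hmp : 1 ≤ m * p := by nlinarith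
  obtain ⟨T, hT, hTs, hTi⟩ : ∃ T : Set ℝ, MeasurableSet T ∧
      (∀ ξ ∈ EE l ∩ {ξ | ξ.1 ∈ S}, ξ.2 ∈ T) ∧
      ∫⁻ t in T, ENNReal.ofReal (1 / (m ^ 2 + p ^ 2 * t ^ 2)) ≤ ENNReal.ofReal (64 / l) := by
    by_cases hc : l ≤ 8 ∨ l / 8 ≤ m * p
    · refine ⟨univ, MeasurableSet.univ, fun _ _ => mem_univ _, ?_⟩
      rw [Measure.restrict_univ, int_inv hm0 hp0]
      refine ENNReal.ofReal_le_ofReal ?_
      rw [div_le_div_iff₀ (by positivity) hl0]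
      rcases hc with h | h
      · nlinarith
      · nlinarith
    · push Not at hc
      obtain ⟨h8, hlt⟩ := hc
      refine ⟨{t | l / 8 ≤ |t|}, measurableSet_le measurable_const continuous_abs.measurable,
        ?_, ?_⟩
      · rintro ξ ⟨⟨h1, -⟩, h2⟩
        have h3 := hSb ξ.1 h2
        obtain ⟨h4, h5⟩ := abs_le_of_sq (by positivity) h3
        show l / 8 ≤ |ξ.2|
        unfold nz at h1
        linarith
      · calc ∫⁻ t in {t : ℝ | l / 8 ≤ |t|}, ENNReal.ofReal (1 / (m ^ 2 + p ^ 2 * t ^ 2))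
            ≤ ∫⁻ t in {t : ℝ | l / 8 ≤ |t|}, 2 *
              ENNReal.ofReal (1 / ((l / 8) ^ 2 + 1 ^ 2 * t ^ 2)) := by
              refine setLIntegral_mono' (measurableSet_le measurable_const
                continuous_abs.measurable) fun t ht => ?_
              have ht' : l / 8 ≤ |t| := ht
              have e2 : (2 : ℝ≥0∞) = ENNReal.ofReal 2 := by norm_num
              rw [e2, ← ENNReal.ofReal_mul (by norm_num)]
              refine ENNReal.ofReal_le_ofReal ?_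
              have h1 : (l / 8) ^ 2 ≤ t ^ 2 := by
                rw [← sq_abs t]
                exact pow_le_pow_left₀ (by positivity) ht' 2
              have h2 : 0 < (l / 8) ^ 2 := by positivity
              have h3 : t ^ 2 ≤ p ^ 2 * t ^ 2 :=
                le_mul_of_one_le_left (sq_nonneg t) (one_le_pow₀ hp)
              have h4 : 0 ≤ m ^ 2 := by positivity
              rw [mul_one_div, div_le_div_iff₀ (by positivity) (by positivity)]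
              nlinarith
          _ ≤ ∫⁻ t : ℝ, 2 * ENNReal.ofReal (1 / ((l / 8) ^ 2 + 1 ^ 2 * t ^ 2)) :=
              setLIntegral_le_lintegral _ _
          _ = 2 * ENNReal.ofReal (π / (l / 8 * 1)) := by
              rw [lintegral_const_mul' _ _ (by norm_num), int_inv (by positivity) one_pos]
          _ ≤ ENNReal.ofReal (64 / l) := by
              have e2 : (2 : ℝ≥0∞) = ENNReal.ofReal 2 := by norm_num
              rw [e2, ← ENNReal.ofReal_mul (by norm_num)]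
              refine ENNReal.ofReal_le_ofReal ?_
              have e3 : 2 * (π / (l / 8 * 1)) = 16 * π / l := by
                field_simp
                norm_num
              rw [e3]
              gcongr
              linarith
  calc ∫⁻ ξ in EE l ∩ {ξ | ξ.1 ∈ S}, H ξ ≤ ∫⁻ ξ in S ×ˢ T, H ξ := by
        refine lintegral_mono_set fun ξ hξ => ?_
        exact ⟨hξ.2, hTs ξ hξ⟩
    _ = ∫⁻ t in T, ∫⁻ X in S, H (X, t) := by
        rw [Measure.volume_eq_prod]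
        exact setLIntegral_prod_symm _ hH.aemeasurable
    _ ≤ ∫⁻ t in T, A * ENNReal.ofReal (1 / (m ^ 2 + p ^ 2 * t ^ 2)) := by
        refine lintegral_mono fun t => hA t
    _ = A * ∫⁻ t in T, ENNReal.ofReal (1 / (m ^ 2 + p ^ 2 * t ^ 2)) := by
        rw [lintegral_const_mul]
        fun_prop
    _ ≤ A * ENNReal.ofReal (64 / l) := by gcongr

/-- all shells -/
theorem lemT {H : (ℝ × ℝ) × ℝ → ℝ≥0∞} (hH : Measurable H) {μ l : ℝ} {K : ℕ} (hμ : 1 ≤ μ)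
    (hl : 1 ≤ l) (hK : 4 * l ≤ 2 ^ K) {A : ℝ≥0∞}
    (h1 : ∀ t, ∫⁻ X in Dsc μ, H (X, t) ≤ A * ENNReal.ofReal (1 / (μ ^ 2 + t ^ 2)))
    (h2 : ∀ t, ∀ j : ℕ, ∫⁻ X in Sh μ j, H (X, t) ≤
      A * ENNReal.ofReal (1 / (μ ^ 2 + 4 ^ j * t ^ 2))) :
    ∫⁻ ξ in EE l, H ξ ≤ ((K + 3 : ℕ) : ℝ≥0∞) * (A * ENNReal.ofReal (64 / l)) := by
  have hμ0 : 0 < μ := by linarith
  have hl0 : 0 < l := by linarith
  have hD : ∫⁻ ξ in EE l ∩ {ξ | ξ.1 ∈ Dsc μ}, H ξ ≤ A * ENNReal.ofReal (64 / l) := by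
    refine lemG hH (m := μ) (p := 1) hμ le_rfl hl (fun X hX => ?_) (fun t => ?_)
    · have h3 : 4 * AR.sq X < μ ^ 2 := hX
      rw [mul_one]
      have h4 : 0 ≤ AR.sq X := by unfold AR.sq; positivity
      linarith
    · rw [one_pow, one_mul]
      exact h1 t
  have hS : ∀ j : ℕ, ∫⁻ ξ in EE l ∩ {ξ | ξ.1 ∈ Sh μ j}, H ξ ≤ A * ENNReal.ofReal (64 / l) := by
    intro j
    refine lemG hH (m := μ) (p := 2 ^ j) hμ (one_le_pow₀ (by norm_num)) hl (fun X hX => ?_)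
      (fun t => ?_)
    · have h3 : 4 * AR.sq X < 4 ^ (j + 1) * μ ^ 2 := hX.2
      have e : (μ * 2 ^ j) ^ 2 = 4 ^ j * μ ^ 2 := by
        rw [mul_pow, ← pow_mul, mul_comm j 2, pow_mul]
        norm_num
        ring
      rw [e]
      rw [pow_succ] at h3
      linarith
    · have e : ((2 : ℝ) ^ j) ^ 2 = 4 ^ j := by
        rw [← pow_mul, mul_comm j 2, pow_mul]
        norm_num
      rw [e]
      exact h2 t j
  have hcov : EE l ⊆ (EE l ∩ {ξ | ξ.1 ∈ Dsc μ}) ∪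
      ⋃ j : Fin (K + 2), EE l ∩ {ξ | ξ.1 ∈ Sh μ j} := by
    intro ξ hξ
    by_cases hd : ξ.1 ∈ Dsc μ
    · exact Or.inl ⟨hξ, hd⟩
    · right
      have h3 : μ ^ 2 ≤ 4 * AR.sq ξ.1 := not_lt.1 hd
      have h4 : (1 : ℝ) ≤ 4 * AR.sq ξ.1 / μ ^ 2 := by
        rw [le_div_iff₀ (by positivity)]
        linarith
      obtain ⟨j, hj1, hj2⟩ := exists_nat_pow_near h4 (by norm_num : (1 : ℝ) < 4)
      rw [le_div_iff₀ (by positivity)] at hj1
      rw [div_lt_iff₀ (by positivity)] at hj2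
      have hmem : ξ.1 ∈ Sh μ j := ⟨hj1, hj2⟩
      have hjK : j < K + 2 := by
        by_contra hc
        push Not at hc
        have h5 : (4 : ℝ) ^ (K + 2) ≤ 4 ^ j := pow_le_pow_right₀ (by norm_num) hc
        have h6 : AR.sq ξ.1 ≤ (4 * l) ^ 2 := by
          obtain ⟨-, h7⟩ := hξ
          unfold nz at h7
          unfold AR.sq
          have h8 := abs_nonneg ξ.1.1
          have h9 := abs_nonneg ξ.1.2
          have h10 := abs_nonneg ξ.2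
          rw [← sq_abs ξ.1.1, ← sq_abs ξ.1.2]
          nlinarith [mul_nonneg h8 h9]
        have h7 : (4 * l) ^ 2 ≤ 4 ^ K := by
          calc (4 * l) ^ 2 ≤ ((2 : ℝ) ^ K) ^ 2 := pow_le_pow_left₀ (by positivity) hK 2
            _ = 4 ^ K := by
                rw [← pow_mul, mul_comm K 2, pow_mul]
                norm_num
        have h8 : (4 : ℝ) ^ (K + 2) = 16 * 4 ^ K := by
          rw [pow_add]
          norm_num
          ring
        have h9 : (1 : ℝ) ≤ μ ^ 2 := by nlinarith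
        have h10 : (0 : ℝ) < 4 ^ K := by positivity
        have h11 : (4 : ℝ) ^ j ≤ 4 ^ j * μ ^ 2 := by
          have : (0 : ℝ) < 4 ^ j := by positivity
          nlinarith
        linarith
      exact mem_iUnion.2 ⟨⟨j, hjK⟩, hξ, hmem⟩
  calc ∫⁻ ξ in EE l, H ξ ≤ ∫⁻ ξ in (EE l ∩ {ξ | ξ.1 ∈ Dsc μ}) ∪
        ⋃ j : Fin (K + 2), EE l ∩ {ξ | ξ.1 ∈ Sh μ j}, H ξ := lintegral_mono_set hcov
    _ ≤ (∫⁻ ξ in EE l ∩ {ξ | ξ.1 ∈ Dsc μ}, H ξ) +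
        ∫⁻ ξ in ⋃ j : Fin (K + 2), EE l ∩ {ξ | ξ.1 ∈ Sh μ j}, H ξ := lintegral_union_le _ _ _
    _ ≤ A * ENNReal.ofReal (64 / l) + ∑' j : Fin (K + 2), A * ENNReal.ofReal (64 / l) := by
        gcongr
        refine (lintegral_iUnion_le _ _).trans ?_
        gcongr with j
        exact hS j
    _ = ((K + 3 : ℕ) : ℝ≥0∞) * (A * ENNReal.ofReal (64 / l)) := by
        rw [tsum_fintype, Finset.sum_const, Finset.card_univ, Fintype.card_fin, nsmul_eq_mul]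
        push_cast
        ring

theorem Fp_int {C : ℝ} (hN : ∀ t w : ℝ, ‖KZ t w‖ ≤ C) {ψ : ℝ → ℝ} (hψ : Measurable ψ)
    (hψ1 : ∀ w, |ψ w| ≤ 1) {g : ℝ → ℂ} {B : ℝ≥0} (hg : Measurable g) (hB : ∀ θ, ‖g θ‖ₑ ≤ B)
    (X : ℝ × ℝ) (t : ℝ) : Integrable (fun θ => KZ t (dt X θ) * ((ψ (dt X θ) : ℝ) : ℂ) * g θ)
      (volume.restrict (Ioo (-π) π)) := by
  have hC : 0 ≤ C := (norm_nonneg _).trans (hN 0 0)
  refine Measure.integrableOn_of_bounded (M := C * 1 * B) ?_ ?_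
    (Filter.Eventually.of_forall fun θ => ?_)
  · rw [Real.volume_Ioo]
    exact ENNReal.ofReal_ne_top
  · have hd : Measurable fun θ : ℝ => dt X θ := by
      unfold MV.dt
      fun_prop
    have hq : Measurable fun θ : ℝ => (t, dt X θ) := measurable_const.prodMk hd
    have hK : Measurable fun θ : ℝ => Function.uncurry KZ (t, dt X θ) := KZ_meas.comp hq
    have hψ' : Measurable fun θ : ℝ => ((ψ (dt X θ) : ℝ) : ℂ) :=
      Complex.measurable_ofReal.comp (hψ.comp hd)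
    exact ((hK.mul hψ').mul hg).aestronglyMeasurable
  · rw [norm_mul, norm_mul, Complex.norm_real, Real.norm_eq_abs]
    gcongr
    · exact hN _ _
    · exact hψ1 _
    · exact real_bound hB θ

/-- the decomposition -/
theorem dec {C : ℝ} (hN : ∀ t w : ℝ, ‖KZ t w‖ ≤ C) {g : ℝ → ℂ} {B : ℝ≥0} (hg : Measurable g)
    (hB : ∀ θ, ‖g θ‖ₑ ≤ B) {l : ℝ} (hl : 1 ≤ l) {K : ℕ} (hK : 4 * l ≤ 2 ^ K)
    {ξ : (ℝ × ℝ) × ℝ} (hξ : ξ ∈ EE l) :
    ∫ θ in Ioo (-π) π, KZ ξ.2 (dt ξ.1 θ) * g θ = Fp c0 g ξ.1 ξ.2 +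
      ∑ k ∈ Finset.range (K + 1), Fp (fun w => psz (w / 2 ^ k)) g ξ.1 ξ.2 +
      ∑ k ∈ Finset.range (K + 1), Fp (fun w => psz (-w / 2 ^ k)) g ξ.1 ξ.2 := by
  have h6 : AR.sq ξ.1 ≤ (4 * l) ^ 2 := by
    obtain ⟨-, h7⟩ := hξ
    unfold nz at h7
    unfold AR.sq
    have h8 := abs_nonneg ξ.1.1
    have h9 := abs_nonneg ξ.1.2
    have h10 := abs_nonneg ξ.2
    rw [← sq_abs ξ.1.1, ← sq_abs ξ.1.2]
    nlinarith [mul_nonneg h8 h9]
  have hw : ∀ θ, |dt ξ.1 θ| ≤ 2 ^ K := by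
    intro θ
    have h1 := dt_sq_le ξ.1 θ
    exact (abs_le_of_sq_le_sq (h1.trans h6) (by positivity)).trans hK
  have hm0 : Measurable c0 := c0_cont.measurable
  have hm1 : ∀ k : ℕ, Measurable fun w : ℝ => psz (w / 2 ^ k) := fun k =>
    psz_cont.measurable.comp (measurable_id.div_const _)
  have hm2 : ∀ k : ℕ, Measurable fun w : ℝ => psz (-w / 2 ^ k) := fun k =>
    psz_cont.measurable.comp (measurable_neg.div_const _)
  have hi0 := Fp_int hN hm0 c0_abs hg hB ξ.1 ξ.2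
  have hi1 := fun k : ℕ => Fp_int hN (hm1 k) (fun w => psz_abs _) hg hB ξ.1 ξ.2
  have hi2 := fun k : ℕ => Fp_int hN (hm2 k) (fun w => psz_abs _) hg hB ξ.1 ξ.2
  have hs1 : Integrable (fun θ => ∑ k ∈ Finset.range (K + 1), KZ ξ.2 (dt ξ.1 θ) *
      ((psz (dt ξ.1 θ / 2 ^ k) : ℝ) : ℂ) * g θ) (volume.restrict (Ioo (-π) π)) :=
    integrable_finsetSum _ fun k _ => hi1 k
  have hs2 : Integrable (fun θ => ∑ k ∈ Finset.range (K + 1), KZ ξ.2 (dt ξ.1 θ) *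
      ((psz (-dt ξ.1 θ / 2 ^ k) : ℝ) : ℂ) * g θ) (volume.restrict (Ioo (-π) π)) :=
    integrable_finsetSum _ fun k _ => hi2 k
  have hs3 : Integrable (fun θ => KZ ξ.2 (dt ξ.1 θ) * ((c0 (dt ξ.1 θ) : ℝ) : ℂ) * g θ +
      ∑ k ∈ Finset.range (K + 1), KZ ξ.2 (dt ξ.1 θ) *
      ((psz (dt ξ.1 θ / 2 ^ k) : ℝ) : ℂ) * g θ) (volume.restrict (Ioo (-π) π)) := hi0.add hs1
  unfold Fp
  rw [← integral_finsetSum _ (fun k _ => hi1 k), ← integral_finsetSum _ (fun k _ => hi2 k),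
    ← integral_add hi0 hs1, ← integral_add hs3 hs2]
  refine integral_congr_ae (Filter.Eventually.of_forall fun θ => ?_)
  show KZ ξ.2 (dt ξ.1 θ) * g θ = KZ ξ.2 (dt ξ.1 θ) * ((c0 (dt ξ.1 θ) : ℝ) : ℂ) * g θ +
    ∑ k ∈ Finset.range (K + 1), KZ ξ.2 (dt ξ.1 θ) *
      ((psz (dt ξ.1 θ / 2 ^ k) : ℝ) : ℂ) * g θ +
    ∑ k ∈ Finset.range (K + 1), KZ ξ.2 (dt ξ.1 θ) *
      ((psz (-dt ξ.1 θ / 2 ^ k) : ℝ) : ℂ) * g θ
  rw [← Finset.sum_mul, ← Finset.sum_mul, ← Finset.mul_sum, ← Finset.mul_sum, ← add_mul,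
    ← add_mul, ← mul_add, ← mul_add, ← Complex.ofReal_sum, ← Complex.ofReal_sum,
    ← Complex.ofReal_add, ← Complex.ofReal_add, part_one (hw θ), Complex.ofReal_one, mul_one]

theorem enorm_add_pow_four (a b : ℂ) : ‖a + b‖ₑ ^ 4 ≤ 8 * (‖a‖ₑ ^ 4 + ‖b‖ₑ ^ 4) := by
  have h1 : ‖a + b‖ₑ ^ 4 ≤ (‖a‖ₑ + ‖b‖ₑ) ^ 4 := by
    gcongr
    exact enorm_add_le a b
  refine h1.trans ?_
  have h2 := ENNReal.rpow_add_le_mul_rpow_add_rpow ‖a‖ₑ ‖b‖ₑ (p := 4) (by norm_num)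
  have h3 : ((2 : ℝ≥0∞) ^ ((4 : ℝ) - 1)) = 8 := by
    have : (4 : ℝ) - 1 = ((3 : ℕ) : ℝ) := by norm_num
    rw [this, ENNReal.rpow_natCast]
    norm_num
  rw [h3] at h2
  have h4 : ∀ x : ℝ≥0∞, x ^ (4 : ℝ) = x ^ 4 := by
    intro x
    have : (4 : ℝ) = ((4 : ℕ) : ℝ) := by norm_num
    rw [this, ENNReal.rpow_natCast]
  rwa [h4, h4, h4] at h2

theorem enorm_sum_pow_four (n : ℕ) (f : ℕ → ℂ) : ‖∑ k ∈ Finset.range n, f k‖ₑ ^ 4 ≤
    (n : ℝ≥0∞) ^ 3 * ∑ k ∈ Finset.range n, ‖f k‖ₑ ^ 4 := by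
  have h1 : ‖∑ k ∈ Finset.range n, f k‖ₑ ^ 4 ≤ (∑ k ∈ Finset.range n, ‖f k‖ₑ) ^ 4 := by
    gcongr
    exact enorm_sum_le _ _
  refine h1.trans ?_
  have h2 := ENNReal.rpow_sum_le_const_mul_sum_rpow (Finset.range n) (fun k => ‖f k‖ₑ)
    (p := 4) (by norm_num)
  have h3 : (4 : ℝ) - 1 = ((3 : ℕ) : ℝ) := by norm_num
  have h4 : ∀ x : ℝ≥0∞, x ^ (4 : ℝ) = x ^ 4 := by
    intro x
    have : (4 : ℝ) = ((4 : ℕ) : ℝ) := by norm_num
    rw [this, ENNReal.rpow_natCast]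
  simp only [h4, h3, ENNReal.rpow_natCast, Finset.card_range] at h2
  exact h2

theorem log_bd {δ l : ℝ} (hδ : 0 < δ) (hl : 1 ≤ l) {K : ℕ} (hK : (2 : ℝ) ^ K ≤ 8 * l) :
    ((K + 3 : ℕ) : ℝ) ^ 7 * (64 / l) ≤ 64 * (6 * (1 + 7 / δ)) ^ 7 * l ^ (-1 + δ) := by
  have hl0 : 0 < l := by linarith
  have h0 : 0 ≤ Real.log l := Real.log_nonneg hl
  have h2 : (1 / 2 : ℝ) < Real.log 2 := by
    have := Real.log_two_gt_d9
    linarith
  have h1 : (K : ℝ) * Real.log 2 ≤ 3 * Real.log 2 + Real.log l := by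
    have h3 : Real.log ((2 : ℝ) ^ K) ≤ Real.log (8 * l) := Real.log_le_log (by positivity) hK
    rw [Real.log_pow, Real.log_mul (by norm_num) hl0.ne'] at h3
    have h4 : Real.log (8 : ℝ) = 3 * Real.log 2 := by
      have : (8 : ℝ) = 2 ^ 3 := by norm_num
      rw [this, Real.log_pow]
      norm_num
    rwa [h4] at h3
  have h5 : (K : ℝ) ≤ 3 + 2 * Real.log l := by
    by_contra hc
    push Not at hc
    nlinarith
  have h6 : Real.log l ≤ 7 / δ * l ^ (δ / 7) := by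
    have h := Real.log_le_rpow_div hl0.le (show 0 < δ / 7 by positivity)
    have e : l ^ (δ / 7) / (δ / 7) = 7 / δ * l ^ (δ / 7) := by
      field_simp
    rwa [e] at h
  have h7 : 1 ≤ l ^ (δ / 7) := Real.one_le_rpow hl (by positivity)
  have h8 : ((K + 3 : ℕ) : ℝ) ≤ 6 * (1 + 7 / δ) * l ^ (δ / 7) := by
    push_cast
    calc (K : ℝ) + 3 ≤ 6 * (1 + Real.log l) := by linarith
      _ ≤ 6 * (l ^ (δ / 7) + 7 / δ * l ^ (δ / 7)) := by linarith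
      _ = _ := by ring
  have h9 : (l ^ (δ / 7)) ^ 7 = l ^ δ := by
    rw [← Real.rpow_natCast, ← Real.rpow_mul hl0.le]
    congr 1
    push_cast
    ring
  calc ((K + 3 : ℕ) : ℝ) ^ 7 * (64 / l) ≤ (6 * (1 + 7 / δ) * l ^ (δ / 7)) ^ 7 * (64 / l) := by
        gcongr
    _ = 64 * (6 * (1 + 7 / δ)) ^ 7 * (l ^ δ / l) := by
        rw [mul_pow, h9]
        ring
    _ = _ := by
        rw [Real.rpow_add hl0, Real.rpow_neg_one]
        ring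

/-- integration of a piece -/
theorem sb_int {ψ : ℝ → ℝ} (hψ : Measurable ψ) {μ l : ℝ} {g : ℝ → ℂ} (hg : Measurable g)
    {A : ℝ≥0∞} (h : SB ψ μ g A) (hμ : 1 ≤ μ) (hl : 1 ≤ l) {K : ℕ} (hK : 4 * l ≤ 2 ^ K) :
    ∫⁻ ξ in EE l, ‖Fp ψ g ξ.1 ξ.2‖ₑ ^ 4 ≤
      ((K + 3 : ℕ) : ℝ≥0∞) * (A * ENNReal.ofReal (64 / l)) := by
  have hm : Measurable fun ξ : (ℝ × ℝ) × ℝ => ‖Fp ψ g ξ.1 ξ.2‖ₑ ^ 4 :=
    (Fp_meas hψ hg).enorm.pow_const 4
  exact lemT hm hμ hl hK (fun t => (h t).1) (fun t j => (h t).2 j)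

/-- **J9** -/
theorem allZ_of (h5 : MainZ) (h6 : StatZ) (h7 : NonZ) (h8 : TrivZ) : AllZ := by
  intro δ hδ hδ'
  obtain ⟨C1, hC1⟩ := sb_all h5 h6 h7 h8
  obtain ⟨C2, hC2⟩ := sb_c0 h7 h8
  obtain ⟨Cn, hCn, hN, -⟩ := h7
  refine ⟨192 * (C1 + C2) * (64 * (6 * (1 + 7 / δ)) ^ 7).toNNReal, fun g B hg hB l hl => ?_⟩
  have hl0 : 0 < l := by linarith
  obtain ⟨n, hn1, hn2⟩ := exists_nat_pow_near (by linarith : (1 : ℝ) ≤ 4 * l)
    (by norm_num : (1 : ℝ) < 2)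
  have hK2 : (2 : ℝ) ^ (n + 1) ≤ 8 * l := by
    rw [pow_succ]
    linarith
  generalize n + 1 = K at hn2 hK2
  have hK1 : 4 * l ≤ 2 ^ K := hn2.le
  set J : ℝ≥0∞ := ∫⁻ θ in Ioo (-π) π, ‖g θ‖ₑ ^ 2 with hJ
  set N : ℝ≥0∞ := ((K + 3 : ℕ) : ℝ≥0∞) with hNd
  have hN1 : 1 ≤ N := by
    rw [hNd]
    exact_mod_cast (by omega : 1 ≤ K + 3)
  have hN2 : ((K + 1 : ℕ) : ℝ≥0∞) ≤ N := by
    rw [hNd]
    exact_mod_cast (by omega : K + 1 ≤ K + 3)
  set P : ℝ≥0∞ := N * (((C1 + C2 : ℝ≥0) : ℝ≥0∞) * N ^ 2 * B ^ 2 * J *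
    ENNReal.ofReal (64 / l)) with hP
  have hg' : Measurable fun θ => conj (g θ) := Complex.continuous_conj.measurable.comp hg
  have hB' : ∀ θ, ‖conj (g θ)‖ₑ ≤ B := by
    intro θ
    rw [enorm_conj]
    exact hB θ
  have hA1 : ∀ k ∈ Finset.range (K + 1), (C1 : ℝ≥0∞) *
      ENNReal.ofReal ((1 + Real.log (2 ^ k)) ^ 2) * B ^ 2 * J ≤
      ((C1 + C2 : ℝ≥0) : ℝ≥0∞) * N ^ 2 * B ^ 2 * J := by
    intro k hk
    have hk' : k ≤ K := by
      rw [Finset.mem_range] at hk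
      omega
    have h1 : ENNReal.ofReal ((1 + Real.log (2 ^ k)) ^ 2) ≤ N ^ 2 := by
      have e : N ^ 2 = ENNReal.ofReal (((K + 3 : ℕ) : ℝ) ^ 2) := by
        rw [hNd, ENNReal.ofReal_pow (by positivity), ENNReal.ofReal_natCast]
      rw [e]
      refine ENNReal.ofReal_le_ofReal ?_
      have h2 : 0 ≤ Real.log ((2 : ℝ) ^ k) := Real.log_nonneg (one_le_pow₀ (by norm_num))
      refine pow_le_pow_left₀ (by positivity) ?_ 2
      rw [Real.log_pow]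
      have h3 : Real.log 2 ≤ 1 := by
        have := Real.log_two_lt_d9
        linarith
      have h4 : (k : ℝ) * Real.log 2 ≤ k * 1 := by gcongr
      have h5 : (k : ℝ) ≤ K := by exact_mod_cast hk'
      push_cast
      linarith
    have h2 : (C1 : ℝ≥0∞) ≤ ((C1 + C2 : ℝ≥0) : ℝ≥0∞) := by exact_mod_cast le_self_add
    gcongr
  have hA0 : (C2 : ℝ≥0∞) * B ^ 2 * J ≤ ((C1 + C2 : ℝ≥0) : ℝ≥0∞) * N ^ 2 * B ^ 2 * J := by
    have h2 : (C2 : ℝ≥0∞) ≤ ((C1 + C2 : ℝ≥0) : ℝ≥0∞) * N ^ 2 := by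
      calc (C2 : ℝ≥0∞) = C2 * 1 := (mul_one _).symm
        _ ≤ ((C1 + C2 : ℝ≥0) : ℝ≥0∞) * N ^ 2 := by
            gcongr
            · exact_mod_cast le_add_self
            · exact one_le_pow₀ hN1
    gcongr
  have hp0 : ∫⁻ ξ in EE l, ‖Fp c0 g ξ.1 ξ.2‖ₑ ^ 4 ≤ P := by
    refine (sb_int c0_cont.measurable hg (hC2 g B hg hB) le_rfl hl hK1).trans ?_
    exact mul_le_mul' le_rfl (mul_le_mul' hA0 le_rfl)
  have hm1 : ∀ k : ℕ, Measurable fun w : ℝ => psz (w / 2 ^ k) := fun k =>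
    psz_cont.measurable.comp (measurable_id.div_const _)
  have hm2 : ∀ k : ℕ, Measurable fun w : ℝ => psz (-w / 2 ^ k) := fun k =>
    psz_cont.measurable.comp (measurable_neg.div_const _)
  have hp1 : ∀ k ∈ Finset.range (K + 1),
      ∫⁻ ξ in EE l, ‖Fp (fun w => psz (w / 2 ^ k)) g ξ.1 ξ.2‖ₑ ^ 4 ≤ P := by
    intro k hk
    have hμ : (1 : ℝ) ≤ 2 ^ k := one_le_pow₀ (by norm_num)
    refine (sb_int (hm1 k) hg (hC1 (2 ^ k) hμ g B hg hB) hμ hl hK1).trans ?_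
    exact mul_le_mul' le_rfl (mul_le_mul' (hA1 k hk) le_rfl)
  have hp2 : ∀ k ∈ Finset.range (K + 1),
      ∫⁻ ξ in EE l, ‖Fp (fun w => psz (-w / 2 ^ k)) g ξ.1 ξ.2‖ₑ ^ 4 ≤ P := by
    intro k hk
    have hμ : (1 : ℝ) ≤ 2 ^ k := one_le_pow₀ (by norm_num)
    have h1 := hC1 (2 ^ k) hμ (fun θ => conj (g θ)) B hg' hB'
    simp only [enorm_conj] at h1
    have h2 := sb_neg (ψ := fun w => psz (w / 2 ^ k)) h1
    refine (sb_int (hm2 k) hg h2 hμ hl hK1).trans ?_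
    exact mul_le_mul' le_rfl (mul_le_mul' (hA1 k hk) le_rfl)
  have hf0 : Measurable fun ξ : (ℝ × ℝ) × ℝ => ‖Fp c0 g ξ.1 ξ.2‖ₑ ^ 4 :=
    (Fp_meas c0_cont.measurable hg).enorm.pow_const 4
  have hf1 : ∀ k : ℕ, Measurable fun ξ : (ℝ × ℝ) × ℝ =>
      ‖Fp (fun w => psz (w / 2 ^ k)) g ξ.1 ξ.2‖ₑ ^ 4 := fun k =>
    (Fp_meas (hm1 k) hg).enorm.pow_const 4
  have hf2 : ∀ k : ℕ, Measurable fun ξ : (ℝ × ℝ) × ℝ =>
      ‖Fp (fun w => psz (-w / 2 ^ k)) g ξ.1 ξ.2‖ₑ ^ 4 := fun k =>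
    (Fp_meas (hm2 k) hg).enorm.pow_const 4
  have hNt : N ^ 3 ≠ ∞ := by
    rw [hNd]
    exact ENNReal.pow_ne_top (ENNReal.natCast_ne_top _)
  have hsum : ∀ f : ℕ → (ℝ × ℝ) × ℝ → ℝ≥0∞, (∀ k, Measurable (f k)) →
      (∀ k ∈ Finset.range (K + 1), ∫⁻ ξ in EE l, f k ξ ≤ P) →
      ∫⁻ ξ in EE l, N ^ 3 * ∑ k ∈ Finset.range (K + 1), f k ξ ≤ N ^ 4 * P := by
    intro f hf hb
    rw [lintegral_const_mul' _ _ hNt, lintegral_finsetSum _ fun k _ => hf k]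
    calc N ^ 3 * ∑ k ∈ Finset.range (K + 1), ∫⁻ ξ in EE l, f k ξ
        ≤ N ^ 3 * ∑ k ∈ Finset.range (K + 1), P := by
          gcongr with k hk
          exact hb k hk
      _ = N ^ 3 * (((K + 1 : ℕ) : ℝ≥0∞) * P) := by
          rw [Finset.sum_const, Finset.card_range, nsmul_eq_mul]
      _ ≤ N ^ 3 * (N * P) := by gcongr
      _ = N ^ 4 * P := by ring
  have hfin : N ^ 7 * ENNReal.ofReal (64 / l) ≤
      ENNReal.ofReal (64 * (6 * (1 + 7 / δ)) ^ 7 * l ^ (-1 + δ)) := by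
    have e : N ^ 7 = ENNReal.ofReal (((K + 3 : ℕ) : ℝ) ^ 7) := by
      rw [hNd, ENNReal.ofReal_pow (by positivity), ENNReal.ofReal_natCast]
    rw [e, ← ENNReal.ofReal_mul (by positivity)]
    exact ENNReal.ofReal_le_ofReal (log_bd hδ hl hK2)
  calc ∫⁻ ξ in {ξ : (ℝ × ℝ) × ℝ | l / 2 ≤ nz ξ ∧ nz ξ ≤ 4 * l},
        ‖∫ θ in Ioo (-π) π, KZ ξ.2 (dt ξ.1 θ) * g θ‖ₑ ^ 4
      = ∫⁻ ξ in EE l, ‖∫ θ in Ioo (-π) π, KZ ξ.2 (dt ξ.1 θ) * g θ‖ₑ ^ 4 := rfl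
    _ ≤ ∫⁻ ξ in EE l, 64 * (‖Fp c0 g ξ.1 ξ.2‖ₑ ^ 4 +
          (N ^ 3 * ∑ k ∈ Finset.range (K + 1),
            ‖Fp (fun w => psz (w / 2 ^ k)) g ξ.1 ξ.2‖ₑ ^ 4 +
          N ^ 3 * ∑ k ∈ Finset.range (K + 1),
            ‖Fp (fun w => psz (-w / 2 ^ k)) g ξ.1 ξ.2‖ₑ ^ 4)) := by
        refine setLIntegral_mono' (EE_meas l) fun ξ hξ => ?_
        rw [dec hN hg hB hl hK1 hξ]
        refine (enorm_add_pow_four _ _).trans ?_
        have h1 := enorm_add_pow_four (Fp c0 g ξ.1 ξ.2)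
          (∑ k ∈ Finset.range (K + 1), Fp (fun w => psz (w / 2 ^ k)) g ξ.1 ξ.2)
        have h2 := enorm_sum_pow_four (K + 1)
          (fun k => Fp (fun w => psz (w / 2 ^ k)) g ξ.1 ξ.2)
        have h3 := enorm_sum_pow_four (K + 1)
          (fun k => Fp (fun w => psz (-w / 2 ^ k)) g ξ.1 ξ.2)
        have h4 : ((K + 1 : ℕ) : ℝ≥0∞) ^ 3 ≤ N ^ 3 := by gcongr
        calc 8 * (‖Fp c0 g ξ.1 ξ.2 + ∑ k ∈ Finset.range (K + 1),
                Fp (fun w => psz (w / 2 ^ k)) g ξ.1 ξ.2‖ₑ ^ 4 +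
              ‖∑ k ∈ Finset.range (K + 1), Fp (fun w => psz (-w / 2 ^ k)) g ξ.1 ξ.2‖ₑ ^ 4)
            ≤ 8 * (8 * (‖Fp c0 g ξ.1 ξ.2‖ₑ ^ 4 + N ^ 3 * ∑ k ∈ Finset.range (K + 1),
                ‖Fp (fun w => psz (w / 2 ^ k)) g ξ.1 ξ.2‖ₑ ^ 4) +
              8 * (N ^ 3 * ∑ k ∈ Finset.range (K + 1),
                ‖Fp (fun w => psz (-w / 2 ^ k)) g ξ.1 ξ.2‖ₑ ^ 4)) := by
              gcongr 8 * (?_ + ?_)
              · refine h1.trans ?_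
                gcongr
                refine h2.trans ?_
                gcongr
              · refine h3.trans ?_
                refine le_trans ?_ (le_mul_of_one_le_left' (by norm_num))
                gcongr
          _ = _ := by ring
    _ = 64 * ((∫⁻ ξ in EE l, ‖Fp c0 g ξ.1 ξ.2‖ₑ ^ 4) +
          ((∫⁻ ξ in EE l, N ^ 3 * ∑ k ∈ Finset.range (K + 1),
            ‖Fp (fun w => psz (w / 2 ^ k)) g ξ.1 ξ.2‖ₑ ^ 4) +
          ∫⁻ ξ in EE l, N ^ 3 * ∑ k ∈ Finset.range (K + 1),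
            ‖Fp (fun w => psz (-w / 2 ^ k)) g ξ.1 ξ.2‖ₑ ^ 4)) := by
        rw [lintegral_const_mul' _ _ (by norm_num), lintegral_add_left hf0, lintegral_add_left]
        exact (Finset.measurable_sum _ fun k _ => hf1 k).const_mul _
    _ ≤ 64 * (P + (N ^ 4 * P + N ^ 4 * P)) := by
        gcongr
        · exact hsum _ hf1 hp1
        · exact hsum _ hf2 hp2
    _ ≤ 64 * (N ^ 4 * P + (N ^ 4 * P + N ^ 4 * P)) := by
        gcongr
        exact le_mul_of_one_le_left' (one_le_pow₀ hN1)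
    _ = 192 * ((C1 + C2 : ℝ≥0) : ℝ≥0∞) * (N ^ 7 * ENNReal.ofReal (64 / l)) * B ^ 2 * J := by
        rw [hP]
        ring
    _ ≤ 192 * ((C1 + C2 : ℝ≥0) : ℝ≥0∞) *
          ENNReal.ofReal (64 * (6 * (1 + 7 / δ)) ^ 7 * l ^ (-1 + δ)) * B ^ 2 * J := by
        gcongr
    _ = _ := by
        rw [ENNReal.ofReal_mul (by positivity)]
        push_cast
        simp only [ENNReal.ofReal]
        ring

end Pool.Agent.TH124.MZ
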